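import Pool.Agent.SGL.StmtsS

/-!
# Squad SGL (MP_41797f_co), row RPT (proof: helper91)
-/

set_option autoImplicit false

namespace Pool.Agent.SGL.H91

open Pool.Agent.SGE Pool.Agent.SGP Pool.Agent.SGY Pool.Agent.SGD Pool.Agent.SGL

theorem mem_Kl_c {V : Type} {v : ℕ → V} {c : V} (h0 : v 0 = c) (i : ℕ) (y : V) :
    y ∈ Kl v i ∪ {c} ↔ ∃ l, l ≤ i ∧ v l = y := by
  constructor
  · rintro (⟨l, h1, h2, h3⟩ | h)
    · exact ⟨l, h2, h3⟩
    · exact ⟨0, Nat.zero_le _, h0.trans (Set.mem_singleton_iff.1 h).symm⟩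
  · rintro ⟨l, h1, h2⟩
    rcases Nat.eq_zero_or_pos l with h | h
    · right
      rw [Set.mem_singleton_iff, ← h2, h, h0]
    · left
      exact ⟨l, h, h1, h2⟩

theorem rpt (pat : PatStmt) (pab : PabStmt) : RptStmt := by
  intro V _ a b c E F N v C₁ C S hrun i j hij hjN
  have hmem : ∀ y, y ∈ Kl v i ∪ {c} ↔ ∃ l, l ≤ i ∧ v l = y := mem_Kl_c hrun.v0 i
  rcases Nat.lt_or_ge j N with hj | hj
  · obtain ⟨P, p, q, Q, Y, hC1, hch, hnd, hY, hS⟩ := hrun.arc j hj
    have hsub : Kl v i ⊆ Kl v j := by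
      rintro y ⟨l, h1, h2, h3⟩
      exact ⟨l, h1, h2.trans hij, h3⟩
    obtain ⟨A, Y₀, B, e, h1, h2⟩ := pat (hrun.st i (hij.trans hjN)) (hrun.st j hjN) hsub P p
      (v (j + 1)) q Q Y hC1 hch hnd hY
    rcases hS with hS | ⟨hpa, hS⟩
    · refine ⟨A, Y₀, B, hS.trans e, fun y hy => (hmem y).1 (h1 y hy), ?_, fun h => ?_⟩
      · intro y hy l hl hv
        exact h2 y hy ((hmem y).2 ⟨l, hl, hv⟩)
      · omega
    · refine ⟨A, Y₀, B ++ [a], ?_, fun y hy => (hmem y).1 (h1 y hy), ?_, fun h => ?_⟩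
      · rw [hS, e]
        simp only [List.append_assoc]
      · intro y hy l hl hv
        rw [← List.append_assoc, List.mem_append] at hy
        rcases hy with hy | hy
        · exact h2 y hy ((hmem y).2 ⟨l, hl, hv⟩)
        · rw [List.mem_singleton] at hy
          exact hrun.na l (by omega) (hv.trans hy)
      · omega
  · have hjN' : j = N := le_antisymm hjN hj
    rw [hjN'] at hij ⊢
    have hstN := hrun.st N le_rfl
    obtain ⟨Y, B, e, h1, h2⟩ := pab (hrun.st i hij) (C N) hstN.n2.hd hstN.n2.ls hstN.n2.nd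
      hrun.top.2
    refine ⟨[], Y, B, ?_, fun y hy => (hmem y).1 (h1 y hy), ?_, fun _ => rfl⟩
    · rw [hrun.top.1, e, List.nil_append]
    · intro y hy l hl hv
      rw [List.nil_append] at hy
      exact h2 y hy ((hmem y).2 ⟨l, hl, hv⟩)

end Pool.Agent.SGL.H91
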